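import Pool.Agent.Work.MP_b5407d_lbm.Interface

/-! # Block `PLT`: the tangent inequality -/

set_option autoImplicit false

open MeasureTheory Set Filter Topology

namespace Pool.LBM

namespace PLT50

theorem dt_cont (a : R2) : Continuous (dt a) := by
  unfold dt
  fun_prop

theorem ex_cont (l : R2) : Continuous (ex l) := Real.continuous_exp.comp (dt_cont l)

theorem hp_closed {ι : Type} (θ : ι → R2) (h : ι → ℝ) : IsClosed (HP θ h) := by
  have : HP θ h = ⋂ i, {x | dt (θ i) x ≤ h i} := by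
    ext x
    simp [HP]
  rw [this]
  exact isClosed_iInter fun i => isClosed_le (dt_cont _) continuous_const

theorem hp_compact {ι : Type} {θ : ι → R2} (hN : Nor θ) (h : ι → ℝ) : IsCompact (HP θ h) :=
  Metric.isCompact_of_isClosed_isBounded (hp_closed θ h) (hN.bdd h)

theorem hp_pos {ι : Type} [Fintype ι] {θ : ι → R2} {h : ι → ℝ} (hf : Fat θ h) :
    0 < volume (HP θ h) := by
  have ho : IsOpen (⋂ i, {x : R2 | dt (θ i) x < h i}) :=
    isOpen_iInter_of_finite fun i => isOpen_lt (dt_cont _) continuous_const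
  have hne : (⋂ i, {x : R2 | dt (θ i) x < h i}).Nonempty := by
    obtain ⟨x, hx⟩ := hf
    exact ⟨x, mem_iInter.2 hx⟩
  refine (ho.measure_pos volume hne).trans_le (measure_mono ?_)
  intro x hx i
  exact (mem_iInter.1 hx i : dt (θ i) x < h i).le

theorem ii_pos {ι : Type} [Fintype ι] {θ : ι → R2} (hN : Nor θ) (l : R2) {h : ι → ℝ}
    (hf : Fat θ h) : 0 < II θ (ex l) h := by
  unfold II
  have hint : IntegrableOn (ex l) (HP θ h) volume :=
    (ex_cont l).continuousOn.integrableOn_compact (hp_compact hN h)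
  rw [integral_pos_iff_support_of_nonneg (f := ex l) (fun x => (Real.exp_pos _).le) hint]
  have : Function.support (ex l) = univ := by
    ext x
    simp [ex]
  rw [this, Measure.restrict_apply MeasurableSet.univ, univ_inter]
  exact hp_pos hf

end PLT50

open PLT50 in
/-- Block `PLT`. -/
theorem blk_PLT : Stmt_FV → Stmt_PRK → Stmt_PLT := by
  intro hFV hPRK ι _ θ l h h' hN hf hf'
  obtain ⟨a, ha⟩ : ∃ a : ℝ → ℝ, a = fun s => II θ (ex l) (fun j => h j + s * (h' j - h j)) :=
    ⟨_, rfl⟩
  have ha0 : a 0 = II θ (ex l) h := by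
    have h0 : (fun j => h j + (0 : ℝ) * (h' j - h j)) = h := by
      funext j
      ring
    rw [ha]
    show II θ (ex l) (fun j => h j + (0 : ℝ) * (h' j - h j)) = II θ (ex l) h
    rw [h0]
  have hI : 0 < II θ (ex l) h := ii_pos hN l hf
  have hI' : 0 < II θ (ex l) h' := ii_pos hN l hf'
  have hd : HasDerivAt a (∑ j, (h' j - h j) * FI θ (ex l) h j) 0 := by
    rw [ha]
    exact hFV ι θ (ex l) h (fun j => h' j - h j) hN (ex_cont l) hf
  have hlog : HasDerivAt (fun s => Real.log (a s))
      ((∑ j, (h' j - h j) * FI θ (ex l) h j) / a 0) 0 := hd.log (by rw [ha0]; exact hI.ne')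
  have hge : ∀ s : ℝ, 0 < s → s < 1 →
      Real.log (II θ (ex l) h') - Real.log (II θ (ex l) h) ≤
        s⁻¹ * (Real.log (a (0 + s)) - Real.log (a 0)) := by
    intro s hs0 hs1
    rw [zero_add]
    have h1 := hPRK ι θ l h h' s hN hs0 hs1
    have h2 : (fun j => (1 - s) * h j + s * h' j) = (fun j => h j + s * (h' j - h j)) := by
      funext j
      ring
    rw [h2] at h1
    have h3 : II θ (ex l) (fun j => h j + s * (h' j - h j)) = a s := by rw [ha]
    rw [h3] at h1
    have hp : 0 < II θ (ex l) h ^ (1 - s) * II θ (ex l) h' ^ s :=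
      mul_pos (Real.rpow_pos_of_pos hI _) (Real.rpow_pos_of_pos hI' _)
    have h4 := Real.log_le_log hp h1
    rw [Real.log_mul (Real.rpow_pos_of_pos hI _).ne' (Real.rpow_pos_of_pos hI' _).ne',
      Real.log_rpow hI, Real.log_rpow hI'] at h4
    rw [ha0, inv_mul_eq_div, le_div_iff₀ hs0]
    linarith
  have hlim2 : Tendsto (fun s => s⁻¹ * (Real.log (a (0 + s)) - Real.log (a 0))) (𝓝[>] 0)
      (𝓝 ((∑ j, (h' j - h j) * FI θ (ex l) h j) / a 0)) := by
    have := hlog.tendsto_slope_zero_right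
    simpa [smul_eq_mul] using this
  have h5 : Real.log (II θ (ex l) h') - Real.log (II θ (ex l) h) ≤
      (∑ j, (h' j - h j) * FI θ (ex l) h j) / a 0 := by
    refine ge_of_tendsto hlim2 ?_
    have : Ioo (0 : ℝ) 1 ∈ 𝓝[>] (0 : ℝ) := Ioo_mem_nhdsGT zero_lt_one
    filter_upwards [this] with s hs
    exact hge s hs.1 hs.2
  rw [ha0] at h5
  have h6 : ∑ j, FI θ (ex l) h j / II θ (ex l) h * (h' j - h j) =
      (∑ j, (h' j - h j) * FI θ (ex l) h j) / II θ (ex l) h := by
    rw [Finset.sum_div]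
    refine Finset.sum_congr rfl fun j _ => ?_
    ring
  rw [h6]
  linarith

end Pool.LBM
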