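import Pool.Agent.Work.MP_b5407d_lbm.Interface

/-! # Block `SCH`: concavity from second differences -/

set_option autoImplicit false

open MeasureTheory Set Filter Topology

namespace Pool.LBM

/-- Block `SCH`. -/
theorem blk_SCH : Stmt_SCH := by
  intro f hf hsd t ht
  by_contra hlt
  rw [not_le] at hlt
  obtain ⟨δ, hδ⟩ : ∃ δ : ℝ, δ = ((1 - t) * f 0 + t * f 1) - f t := ⟨_, rfl⟩
  have hδ0 : 0 < δ := by rw [hδ]; linarith
  obtain ⟨G, hG⟩ : ∃ G : ℝ → ℝ, G = fun x => f x - ((1 - x) * f 0 + x * f 1) - δ * (x * (x - 1)) :=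
    ⟨_, rfl⟩
  have hGc : ContinuousOn G (Icc 0 1) := by
    rw [hG]
    exact (hf.sub (by fun_prop)).sub (by fun_prop)
  obtain ⟨x, hx, hmin⟩ := isCompact_Icc.exists_isMinOn (nonempty_Icc.2 zero_le_one) hGc
  have hGt : G t < 0 := by
    rw [hG]
    have h1 : f t - ((1 - t) * f 0 + t * f 1) = -δ := by rw [hδ]; ring
    show f t - ((1 - t) * f 0 + t * f 1) - δ * (t * (t - 1)) < 0
    rw [h1]
    have h2 : t * (1 - t) ≤ 1 / 4 := by nlinarith [sq_nonneg (t - 1 / 2)]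
    nlinarith
  have hGx : G x < 0 := lt_of_le_of_lt (hmin ht) hGt
  have hG0 : G 0 = 0 := by rw [hG]; ring
  have hG1 : G 1 = 0 := by rw [hG]; ring
  have hx0 : 0 < x := by
    rcases hx.1.lt_or_eq with h | h
    · exact h
    · rw [← h, hG0] at hGx
      exact absurd hGx (lt_irrefl _)
  have hx1 : x < 1 := by
    rcases hx.2.lt_or_eq with h | h
    · exact h
    · rw [h, hG1] at hGx
      exact absurd hGx (lt_irrefl _)
  obtain ⟨α, hα⟩ := hsd x ⟨hx0, hx1⟩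
  have h1 := hα (δ / 2) (by positivity)
  have h2 : ∀ᶠ s in 𝓝 (0 : ℝ), x + s ∈ Ioo (0 : ℝ) 1 := by
    have hc : Tendsto (fun s : ℝ => x + s) (𝓝 0) (𝓝 (x + 0)) :=
      (continuous_const.add continuous_id).tendsto 0
    rw [add_zero] at hc
    exact hc (Ioo_mem_nhds hx0 hx1)
  obtain ⟨r, hr, hball⟩ := Metric.eventually_nhds_iff.1 (h1.and h2)
  obtain ⟨β, hβ⟩ : ∃ β : ℝ, β = f 1 - f 0 + δ * (2 * x - 1) := ⟨_, rfl⟩
  have key : ∀ s : ℝ, |s| < r → β * s + δ * s ^ 2 ≤ α * s + δ / 2 * s ^ 2 := by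
    intro s hs
    obtain ⟨h3, h4⟩ := hball (by rw [Real.dist_eq, sub_zero]; exact hs : dist s 0 < r)
    have h5 := hmin (show x + s ∈ Icc (0 : ℝ) 1 from ⟨h4.1.le, h4.2.le⟩)
    have h6 : G x ≤ G (x + s) := h5
    rw [hG] at h6
    have h7 : f x - ((1 - x) * f 0 + x * f 1) - δ * (x * (x - 1)) ≤
      f (x + s) - ((1 - (x + s)) * f 0 + (x + s) * f 1) - δ * ((x + s) * ((x + s) - 1)) := h6
    rw [hβ]
    nlinarith
  have hr2 : |r / 2| < r := by rw [abs_of_pos (by positivity)]; linarith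
  have k1 := key (r / 2) hr2
  have k2 := key (-(r / 2)) (by rw [abs_neg]; exact hr2)
  have h8 : 0 < δ * r ^ 2 := by positivity
  nlinarith

end Pool.LBM
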